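import Mathlib

/-!
# The sequence `(p ^ n + N) / (p ^ n + D)` has no complete Bernstein interpolant

If `F x = a + b x + ∫ (1 - e^{-x t}) m(t) dt` with `m` completely monotone, then `m` is nonincreasing,
so it is at least a constant `c > 0` on some interval `(0, t₀]`, or zero.  In the first case
`F (2 n) - F n` is at least `c (1 - e^{-n t₀})² / (2 n)`, which is not exponentially small.
-/

set_option autoImplicit false

namespace Pool.Agent.Results.MP_e444d1_an.NoCompleteBernstein

open Real Set Filter MeasureTheory Topology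

/-- `m` is completely monotone on `(0, ∞)`: it is smooth there and `(-1)^k m^(k) ≥ 0` for all `k`. -/
def IsCompletelyMonotone (m : ℝ → ℝ) : Prop :=
  ContDiffOn ℝ (⊤ : ℕ∞) m (Ioi 0) ∧
    ∀ k : ℕ, ∀ t : ℝ, 0 < t → 0 ≤ (-1) ^ k * iteratedDeriv k m t

/-- `F` is a complete Bernstein function: on `(0, ∞)` it is given by the Lévy-Khintchine formula
`F x = a + b x + ∫_{(0, ∞)} (1 - e^{-x t}) m(t) dt`, `a, b ≥ 0`, where the density `m` is completely
monotone and `∫ min(1, t) m(t) dt` is finite. -/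
def IsCompleteBernstein (F : ℝ → ℝ) : Prop :=
  ∃ (a b : ℝ) (m : ℝ → ℝ), 0 ≤ a ∧ 0 ≤ b ∧ IsCompletelyMonotone m ∧
    IntegrableOn (fun t => min 1 t * m t) (Ioi 0) ∧
    ∀ x : ℝ, 0 < x → F x = a + b * x + ∫ t in Ioi 0, (1 - exp (-(x * t))) * m t

theorem IsCompletelyMonotone.nonneg {m : ℝ → ℝ} (hm : IsCompletelyMonotone m) {t : ℝ}
    (ht : 0 < t) : 0 ≤ m t := by
  have := hm.2 0 t ht
  simpa using this

theorem IsCompletelyMonotone.antitone {m : ℝ → ℝ} (hm : IsCompletelyMonotone m) :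
    AntitoneOn m (Ioi 0) := by
  have hd : DifferentiableOn ℝ m (Ioi 0) := hm.1.differentiableOn (by simp)
  refine antitoneOn_of_deriv_nonpos (convex_Ioi 0) hd.continuousOn ?_ ?_
  · rw [interior_Ioi]; exact hd
  · intro t ht
    rw [interior_Ioi] at ht
    have := hm.2 1 t ht
    simp only [pow_one, iteratedDeriv_one] at this
    linarith

theorem one_sub_exp_le {x t : ℝ} (hx : 0 < x) (ht : 0 < t) :
    1 - exp (-(x * t)) ≤ (1 + x) * min 1 t := by
  have h1 : 1 - exp (-(x * t)) ≤ x * t := by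
    have := Real.add_one_le_exp (-(x * t)); linarith
  have h2 : 1 - exp (-(x * t)) ≤ 1 := by
    have := Real.exp_pos (-(x * t)); linarith
  rcases le_total 1 t with h | h
  · rw [min_eq_left h]; nlinarith
  · rw [min_eq_right h]; nlinarith

theorem integrable_term {m : ℝ → ℝ} (hm : IsCompletelyMonotone m)
    (hi : IntegrableOn (fun t => min 1 t * m t) (Ioi 0)) {x : ℝ} (hx : 0 < x) :
    IntegrableOn (fun t => (1 - exp (-(x * t))) * m t) (Ioi 0) := by
  have hc : ContinuousOn m (Ioi 0) := (hm.1.differentiableOn (by simp)).continuousOn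
  refine Integrable.mono' (hi.const_mul (1 + x)) ?_ ?_
  · refine ContinuousOn.aestronglyMeasurable ?_ measurableSet_Ioi
    refine ContinuousOn.mul ?_ hc
    exact Continuous.continuousOn (by fun_prop)
  · filter_upwards [ae_restrict_mem measurableSet_Ioi] with t ht
    have ht' : 0 < t := ht
    have h0 : 0 ≤ 1 - exp (-(x * t)) := by
      have : exp (-(x * t)) ≤ 1 := Real.exp_le_one_iff.2 (by nlinarith)
      linarith
    rw [Real.norm_eq_abs, abs_of_nonneg (mul_nonneg h0 (hm.nonneg ht')), ← mul_assoc]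
    exact mul_le_mul_of_nonneg_right (one_sub_exp_le hx ht') (hm.nonneg ht')

/-- The lower bound for `F (2 n) - F n`. -/
theorem lower_bound {m : ℝ → ℝ} (hm : IsCompletelyMonotone m)
    (hi : IntegrableOn (fun t => min 1 t * m t) (Ioi 0)) {x t₀ : ℝ} (hx : 0 < x) (ht₀ : 0 < t₀) :
    m t₀ * (1 - exp (-(x * t₀))) ^ 2 / (2 * x) ≤
      (∫ t in Ioi 0, (1 - exp (-(2 * x * t))) * m t) -
        ∫ t in Ioi 0, (1 - exp (-(x * t))) * m t := by
  have i1 := integrable_term hm hi (x := 2 * x) (by positivity)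
  have i2 := integrable_term hm hi hx
  rw [← integral_sub i1 i2]
  have hsub : IntegrableOn (fun t => (1 - exp (-(2 * x * t))) * m t -
      (1 - exp (-(x * t))) * m t) (Ioi 0) := i1.sub i2
  have hkey : ∀ t, (1 - exp (-(2 * x * t))) * m t - (1 - exp (-(x * t))) * m t =
      (exp (-(x * t)) - exp (-(2 * x * t))) * m t := fun t => by ring
  have hexp : ∀ t, 0 < t → 0 ≤ exp (-(x * t)) - exp (-(2 * x * t)) := fun t ht => by
    have : exp (-(2 * x * t)) ≤ exp (-(x * t)) := Real.exp_le_exp.2 (by nlinarith)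
    linarith
  have h1 : ∫ t in Ioc 0 t₀, (exp (-(x * t)) - exp (-(2 * x * t))) * m t₀ ≤
      ∫ t in Ioi 0, ((1 - exp (-(2 * x * t))) * m t - (1 - exp (-(x * t))) * m t) := by
    calc ∫ t in Ioc 0 t₀, (exp (-(x * t)) - exp (-(2 * x * t))) * m t₀
        ≤ ∫ t in Ioc 0 t₀, ((1 - exp (-(2 * x * t))) * m t - (1 - exp (-(x * t))) * m t) := by
          refine setIntegral_mono_on ?_ (hsub.mono_set Ioc_subset_Ioi_self) measurableSet_Ioc ?_
          · refine IntegrableOn.mono_set ?_ Ioc_subset_Icc_self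
            exact ContinuousOn.integrableOn_Icc (Continuous.continuousOn (by fun_prop))
          · intro t ht
            rw [hkey]
            exact mul_le_mul_of_nonneg_left (hm.antitone ht.1 ht₀ ht.2) (hexp t ht.1)
      _ ≤ _ := by
          refine setIntegral_mono_set hsub ?_ (LE.le.eventuallyLE Ioc_subset_Ioi_self)
          filter_upwards [ae_restrict_mem measurableSet_Ioi] with t ht
          rw [hkey]
          exact mul_nonneg (hexp t ht) (hm.nonneg ht)
  refine le_trans (le_of_eq ?_) h1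
  rw [← intervalIntegral.integral_of_le ht₀.le, intervalIntegral.integral_mul_const]
  have h2 : ∫ t in (0 : ℝ)..t₀, (exp (-(x * t)) - exp (-(2 * x * t))) =
      (1 - exp (-(x * t₀))) ^ 2 / (2 * x) := by
    have hd : ∀ t ∈ uIcc 0 t₀, HasDerivAt
        (fun t => -exp (-(x * t)) / x + exp (-(2 * x * t)) / (2 * x))
        (exp (-(x * t)) - exp (-(2 * x * t))) t := by
      intro t _
      have e1 : HasDerivAt (fun t => exp (-(x * t))) (exp (-(x * t)) * (-x)) t := by
        have : HasDerivAt (fun t => -(x * t)) (-x) t := by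
          simpa using (hasDerivAt_id t).const_mul (-x)
        exact this.exp
      have e2 : HasDerivAt (fun t => exp (-(2 * x * t))) (exp (-(2 * x * t)) * (-(2 * x))) t := by
        have : HasDerivAt (fun t => -(2 * x * t)) (-(2 * x)) t := by
          simpa using (hasDerivAt_id t).const_mul (-(2 * x))
        exact this.exp
      have e3 := (e1.neg.div_const x).add (e2.div_const (2 * x))
      refine HasDerivAt.congr_deriv (f := fun t => -exp (-(x * t)) / x + exp (-(2 * x * t)) / (2 * x))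
        e3 ?_
      field_simp
      ring
    rw [intervalIntegral.integral_eq_sub_of_hasDerivAt hd
      (Continuous.intervalIntegrable (by fun_prop) _ _)]
    have e3 : exp (-(2 * x * t₀)) = exp (-(x * t₀)) ^ 2 := by
      rw [← Real.exp_nat_mul]; congr 1; push_cast; ring
    rw [e3]
    simp only [mul_zero, neg_zero, Real.exp_zero]
    field_simp
    ring
  rw [h2]
  ring

/-- `n / (p ^ n + D) → 0`. -/
theorem tendsto_aux {p D : ℝ} (hp : 1 < p) (hD : -1 < D) :
    Tendsto (fun n : ℕ => (n : ℝ) / (p ^ n + D)) atTop (𝓝 0) := by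
  have h1 : Tendsto (fun n : ℕ => (n : ℝ) ^ 1 / p ^ n) atTop (𝓝 0) :=
    tendsto_pow_const_div_const_pow_of_one_lt 1 hp
  have h2 : Tendsto (fun n : ℕ => p ^ n) atTop atTop := tendsto_pow_atTop_atTop_of_one_lt hp
  have h3 : Tendsto (fun n : ℕ => 1 + D / p ^ n) atTop (𝓝 (1 + 0)) :=
    tendsto_const_nhds.add (h2.const_div_atTop D)
  have h4 := h1.div h3 (by norm_num)
  simp only [add_zero, div_one, pow_one] at h4
  refine h4.congr fun n => ?_
  have hpn : 0 < p ^ n := by positivity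
  have : p ^ n + D ≠ 0 := by
    have : 1 ≤ p ^ n := one_le_pow₀ hp.le
    linarith
  simp only [Pi.div_apply]
  field_simp

/-- For no triple `p > 1`, `-1 < N < D ≤ 0` does the sequence `a_n = (p ^ n + N) / (p ^ n + D)` have an
interpolant `F` (`F(0+) = a_0` and `F(n) = a_n` for `n ≥ 1`) which is a complete Bernstein function. -/
theorem result (p N D : ℝ) (hp : 1 < p) (hN : -1 < N) (hND : N < D) (hD : D ≤ 0) :
    ¬ ∃ F : ℝ → ℝ, IsCompleteBernstein F ∧
      Tendsto F (𝓝[>] 0) (𝓝 ((p ^ 0 + N) / (p ^ 0 + D))) ∧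
      ∀ n : ℕ, 1 ≤ n → F n = (p ^ n + N) / (p ^ n + D) := by
  rintro ⟨F, ⟨a, b, m, ha, hb, hm, hi, hF⟩, -, hn⟩
  have hD1 : -1 < D := hN.trans hND
  have hpos : ∀ n : ℕ, 0 < p ^ n + D := fun n => by
    have : 1 ≤ p ^ n := one_le_pow₀ hp.le
    linarith
  -- the increments
  have hdiff : ∀ n : ℕ, 1 ≤ n → ∀ t₀ : ℝ, 0 < t₀ →
      b * n + m t₀ * (1 - exp (-(n * t₀))) ^ 2 / (2 * n) ≤ (D - N) / (p ^ n + D) := by
    intro n hn1 t₀ ht₀
    have hn0 : (0 : ℝ) < n := by exact_mod_cast hn1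
    have e1 := hn n hn1
    have e2 := hn (2 * n) (by omega)
    rw [hF _ hn0] at e1
    have h2n : ((2 * n : ℕ) : ℝ) = 2 * n := by push_cast; ring
    rw [h2n, hF _ (by positivity)] at e2
    have lb := lower_bound hm hi hn0 ht₀
    have e3 : (p ^ (2 * n) + N) / (p ^ (2 * n) + D) ≤ 1 := by
      rw [div_le_one (hpos _)]; linarith
    have e4 : (p ^ n + N) / (p ^ n + D) = 1 - (D - N) / (p ^ n + D) := by
      field_simp [(hpos n).ne']; ring
    linarith
  have hlim : Tendsto (fun n : ℕ => (n : ℝ) * ((D - N) / (p ^ n + D))) atTop (𝓝 0) := by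
    have := (tendsto_aux hp hD1).const_mul (D - N)
    rw [mul_zero] at this
    refine this.congr fun n => ?_
    ring
  -- `m = 0`
  have hm0 : ∀ t₀ : ℝ, 0 < t₀ → m t₀ = 0 := by
    intro t₀ ht₀
    by_contra hne
    have hmp : 0 < m t₀ := lt_of_le_of_ne (hm.nonneg ht₀) (Ne.symm hne)
    have hc : 0 < m t₀ * (1 - exp (-t₀)) ^ 2 / 2 := by
      have : exp (-t₀) < 1 := Real.exp_lt_one_iff.2 (by linarith)
      have : 0 < 1 - exp (-t₀) := by linarith
      positivity
    obtain ⟨n, hn1, hn2⟩ := ((hlim.eventually (gt_mem_nhds hc)).and (eventually_ge_atTop 1)).exists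
    have hn0 : (0 : ℝ) < n := by exact_mod_cast hn2
    have h := mul_le_mul_of_nonneg_left (hdiff n hn2 t₀ ht₀) hn0.le
    have h5 : exp (-(n * t₀)) ≤ exp (-t₀) := by
      refine Real.exp_le_exp.2 ?_
      have : (1 : ℝ) ≤ n := by exact_mod_cast hn2
      nlinarith
    have h6 : (1 - exp (-t₀)) ^ 2 ≤ (1 - exp (-(n * t₀))) ^ 2 := by
      have : exp (-t₀) < 1 := Real.exp_lt_one_iff.2 (by linarith)
      exact pow_le_pow_left₀ (by linarith) (by linarith) 2
    have h7 : (n : ℝ) * (b * n + m t₀ * (1 - exp (-(n * t₀))) ^ 2 / (2 * n)) =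
        b * n ^ 2 + m t₀ * (1 - exp (-(n * t₀))) ^ 2 / 2 := by
      field_simp
    rw [h7] at h
    have h8 : m t₀ * (1 - exp (-t₀)) ^ 2 ≤ m t₀ * (1 - exp (-(n * t₀))) ^ 2 :=
      mul_le_mul_of_nonneg_left h6 hmp.le
    have h9 : 0 ≤ b * (n : ℝ) ^ 2 := by positivity
    linarith
  -- then `F x = a + b x`
  have hI : ∀ x : ℝ, ∫ t in Ioi 0, (1 - exp (-(x * t))) * m t = 0 := by
    intro x
    rw [setIntegral_congr_fun (g := fun _ => (0 : ℝ)) measurableSet_Ioi]
    · simp
    · intro t ht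
      simp [hm0 t ht]
  have hb0 : b = 0 := by
    by_contra hne
    have hbp : 0 < b := lt_of_le_of_ne hb (Ne.symm hne)
    obtain ⟨n, hn1, hn2⟩ := ((hlim.eventually (gt_mem_nhds hbp)).and (eventually_ge_atTop 1)).exists
    have hn0 : (0 : ℝ) < n := by exact_mod_cast hn2
    have h := mul_le_mul_of_nonneg_left (hdiff n hn2 1 one_pos) hn0.le
    rw [hm0 1 one_pos] at h
    have : (1 : ℝ) ≤ n := by exact_mod_cast hn2
    simp only [zero_mul, zero_div, add_zero] at h
    have h2 : (1 : ℝ) ≤ n * n := by nlinarith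
    nlinarith [mul_le_mul_of_nonneg_left h2 hbp.le]
  have e1 := hn 1 le_rfl
  have e2 := hn 2 (by norm_num)
  rw [hF _ (by norm_num), hI, hb0] at e1 e2
  have e3 : (p ^ 1 + N) / (p ^ 1 + D) = (p ^ 2 + N) / (p ^ 2 + D) := by
    rw [← e1, ← e2]
    simp
  rw [div_eq_div_iff (hpos 1).ne' (hpos 2).ne'] at e3
  have : (D - N) * (p ^ 2 - p) = 0 := by ring_nf; ring_nf at e3; linarith
  rcases mul_eq_zero.1 this with h | h
  · linarith
  · nlinarith

end Pool.Agent.Results.MP_e444d1_an.NoCompleteBernstein
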